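import Mathlib
import Pool.Agent.W484.TB.Gen

/-!
# Products of almost all abelian varieties with all varieties over a given number field of
# eigenvalues

Let `g i` (`i` in a finite set `I`) be positive integers, `r` an integer smaller than all the `g i`
and `E` a number field.  For a prime power `q` let `S i` be the set of the characteristic
polynomials of Frobenius of the ordinary abelian varieties of dimension `g i` over the field with `q`
elements, or of all abelian varieties of dimension `g i`, or any set in between.  By Weil, Honda and
Tate its elements correspond to the isogeny classes, the first set contains `ordinaryWeilPolys q
(g i)`, and the second one is contained in `weilPolys q (g i)`.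

For all families `f i` in `S i` with the exception of a proportion `O (q ^ (-1 / 6) log q)`, the
constant depending only on `g` and `E`, the following holds for all abelian varieties `A` over the
field with `q` elements, isogenous to a product of powers of abelian varieties `A i` with
characteristic polynomials `f i`, all `s > 0`, and **all** varieties `Z` over the field with
`Q = q ^ s` elements, which may be singular, open, reducible, and all degrees, such that the
eigenvalues of Frobenius on the etale homology (or the cohomology with compact supports) of `Z` in
this degree and their conjugates generate a group of rank at most `r` modulo the group of the numbers
with a power in `E`.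

* Every Tate class in the part `H ^ n (A) ⊗ H_m (Z)` of the homology of `A × Z` is a linear
  combination of products of `n / 2` divisor classes on `A` and a Tate class in `H_m (Z)`; it is
  zero if `n` is odd.  So Tate's theorem on divisors implies: the surjectivity (a) of the conjecture
  of Jannsen for `A × Z` follows from that for `Z`, over the field with `Q` elements and all its
  finite extensions.
* The same holds for generalized eigenvectors.  So the eigenvalue of the Frobenius in question is
  semisimple on the homology of `A × Z` if it is on that of `Z`, and the order of the pole of
  `L (A × Z, s)` at integers is determined by the ones of `Z` and by the ranks of the groups of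
  products of divisors on `A`.

For `r = 0` the assumption on `Z` is: the eigenvalues of Frobenius and their conjugates have powers
in `E`.  Let for instance `Z` be any given variety over a finite field with `q'` elements: one can
take for `E` the field generated by the eigenvalues of Frobenius and their conjugates, and applies the
theorem to the powers `q` of `q'`.  For `E = ℚ` the assumption is: rank at most `r` modulo all
rational numbers.  The bound `r < g i` is sharp: `Z = A i`.

Here `V` is the first cohomology of `A` with the Frobenius endomorphism `F` of the field with `q`
elements, `H` is `H_m (Z)` with its Frobenius endomorphism `G`.

The idea of the proof: by a sieve (helper521), which only uses the primes that split completely in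
the Galois closure of `E` - these have positive density by the theorem of Chebotarev, formalized by
helper401 - almost all families are such that each pair `α`, `q / α` of roots can be exchanged by a
Galois automorphism which fixes all the other roots of all the `f i` and also all elements of `E`.
If a product of roots, no two with product `q`, and of an eigenvalue of `G` is a power of `q` up to a
root of unity, then the flips and the transitivity of the Galois group show that the group generated
by the eigenvalues of `G` contains a power of each root `α` of some `f i`, up to elements with a power
in `E`, and the flips show that these are independent: the rank is at least `g i`.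
-/

set_option autoImplicit false

namespace Pool.Agent.Results.MP_4776b1_ag.AlmostAllTimesGivenField

open Polynomial Pool.Agent.W521.Descent Pool.Agent.W521.Count Pool.Agent.W484.TB

/-- `weilPolys q g` is the set of monic integral polynomials of degree `2 g` with constant term
`q ^ g` and all roots of absolute value `√q`; `ordinaryWeilPolys q g` is the subset of those
whose coefficient of index `g` is prime to `q`. -/
theorem result {I : Type} [Fintype I] (g : I → ℕ) (r : ℕ) (hr : ∀ i, r < g i)
    (E : IntermediateField ℚ ℂ) [FiniteDimensional ℚ E] :
    ∃ C : ℝ, ∀ q : ℕ, IsPrimePow q → ∀ S : I → Set ℤ[X],
      (∀ i, ordinaryWeilPolys q (g i) ⊆ S i ∧ S i ⊆ weilPolys q (g i)) →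
      (∀ i, (S i).Finite ∧ (S i).Nonempty) ∧
      ({f : I → ℤ[X] | (∀ i, f i ∈ S i) ∧ ¬ GenTateForRankOver E q r f}.ncard : ℝ) ≤
        C * (Real.log q * (q : ℝ) ^ (-(1 / 6) : ℝ)) * ∏ i, ((S i).ncard : ℝ) :=
  count_of_goodU (splitPrimes E) (dense_splitPrimes E) g
    (fun i => (Nat.zero_le r).trans_lt (hr i)) (fun q f => GenTateForRankOver E q r f)
    fun _ hq x hx => genTateForRankOver_of_good g E hq.pos.ne' r hr x hx

end Pool.Agent.Results.MP_4776b1_ag.AlmostAllTimesGivenField
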